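import Pool.Agent.H629.GC.Stm

set_option autoImplicit false

open MeasureTheory ProbabilityTheory Set Filter
open scoped ENNReal Topology

/-!
# The critical weighted moment is unbounded (project GC of helper629, part F2)
-/

namespace Pool.Agent.H216.GC.F2

open Pool.Agent.H629.GC

theorem ex_mono {a b : ℝ} (h : a ≤ b) : ex a ≤ ex b :=
  ENNReal.ofReal_le_ofReal (Real.exp_le_exp.2 h)

theorem W_nil {Ω T : Type} [MeasurableSpace Ω] (X : ℕ → T → Ω → ℝ) (m n : ℕ) (ω : Ω) :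
    W X [] m n ω = 1 := by
  unfold W ev
  simp

theorem Ph_nil {Ω T : Type} [MeasurableSpace Ω] (P : Measure Ω) (hP : IsProbabilityMeasure P)
    (X : ℕ → T → Ω → ℝ) (m n : ℕ) : Ph P X [] m n = 1 := by
  unfold Ph
  simp [W_nil]

/-- the levels -/
theorem exists_levels {s : ℕ → ℝ} (hs : Tendsto s atTop atTop) (σ w : ℝ) (hw : 0 ≤ w) :
    ∃ k : ℕ → ℕ, (∀ i, σ ≤ s (k i)) ∧ (∀ i, 0 ≤ s (k i)) ∧
      ∀ i, 3 * s (k i) + w ≤ s (k (i + 1)) := by
  have h1 : ∀ b : ℝ, ∃ k, b ≤ s k := fun b => (hs.eventually_ge_atTop b).exists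
  choose f hf using h1
  let k : ℕ → ℕ := fun i => Nat.rec (f (max σ 0)) (fun _ r => f (3 * s r + w)) i
  have hk0 : k 0 = f (max σ 0) := rfl
  have hk : ∀ i, k (i + 1) = f (3 * s (k i) + w) := fun i => rfl
  have h2 : ∀ i, max σ 0 ≤ s (k i) := by
    intro i
    induction i with
    | zero =>
      rw [hk0]
      exact hf _
    | succ i ih =>
      rw [hk]
      refine le_trans ?_ (hf _)
      have h3 : 0 ≤ s (k i) := (le_max_right _ _).trans ih
      linarith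
  refine ⟨k, fun i => (le_max_left _ _).trans (h2 i), fun i => (le_max_right _ _).trans (h2 i),
    fun i => ?_⟩
  rw [hk]
  exact hf _

theorem t_F2 (hA4 : S_A4) (hA5 : S_A5) (hC2 : S_C2) (hE1 : S_E1) (hE2 : S_E2) (hF1 : S_F1)
    (hCL : Ass (fun _Ω _T _ _ _ P X Q s vol b d =>
      ∀ r : ℝ, 0 ≤ r → b ^ 2 / 2 * r < d → Claim P X Q s vol b d r)) : S_F2 := by
  intro Ω T i₁ i₂ hsc i₃ hBor P X Q s vol β d hCh hQ hsf hreg hd hβ hβd A hA hAQ c C₀ σ hc H
  have hβ2 : 0 < β ^ 2 := by positivity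
  -- the exponents
  obtain ⟨q, hq⟩ : ∃ q : ℝ, q = 2 * d / β ^ 2 - 1 := ⟨_, rfl⟩
  have hqd : β ^ 2 / 2 * (1 + q) = d := by
    rw [hq]
    field_simp
    ring
  have hq0 : 0 < q := by
    by_contra h
    push Not at h
    nlinarith
  obtain ⟨h, hh⟩ : ∃ h : ℝ, h = min (q / 4) (1 / 2) := ⟨_, rfl⟩
  have hh0 : 0 < h := by
    rw [hh]
    exact lt_min (by linarith) (by norm_num)
  have hh4 : h ≤ q / 4 := by
    rw [hh]
    exact min_le_left _ _
  have hh2 : h ≤ 1 / 2 := by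
    rw [hh]
    exact min_le_right _ _
  obtain ⟨v, hv⟩ : ∃ v : ℝ, v = β ^ 2 * q / 2 := ⟨_, rfl⟩
  have hv0 : 0 < v := by
    rw [hv]
    positivity
  obtain ⟨γ, hγ⟩ : ∃ γ : ℝ, γ = β ^ 2 * h ^ 2 / 2 := ⟨_, rfl⟩
  have hγe : γ < v / 2 * h := by
    rw [hγ, hv]
    have h1 : 0 < β ^ 2 * h * (q / 2 - h) := by
      have : 0 < q / 2 - h := by linarith
      positivity
    nlinarith
  -- the pieces
  have hCl := hCL Ω T i₁ i₂ hsc i₃ hBor P X Q s vol β d hCh hQ hsf hreg hd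
  have hPiece : ∀ r : ℝ, 0 < r → β ^ 2 / 2 * r < d → Piece P X Q s vol β d r 0 := by
    intro r hr0 hrd
    rcases lt_or_ge r 1 with hr | hr
    · exact hE1 Ω T i₁ i₂ hsc i₃ hBor P X Q s vol β d hCh hQ hsf hreg hd r 0 hr0 hr
    · exact hE2 Ω T i₁ i₂ hsc i₃ hBor P X Q s vol β d hCh hQ hsf hreg hd r 0 hr
        (hCl r hr0.le hrd)
  have hb : ∀ r : ℝ, 0 < r → β ^ 2 / 2 * r < d → ∃ C : ℝ, ∀ (k n : ℕ) (B : Set T) (x : T),
      k ≤ n → MeasurableSet B → B ⊆ Q → x ∈ Q → B ⊆ Metric.closedBall x (Real.exp (-(s k))) →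
      (∀ y ∈ B, c * Real.exp (-(s k)) ≤ dist x y) →
      ∫⁻ ω, gh P X β 0 n x ω * Z P X β vol 0 n B ω ^ r ∂P ≤
        ex (C + s k * (β ^ 2 / 2 * r * (r - q))) := by
    intro r hr0 hrd
    obtain ⟨C, hC⟩ := hPiece r hr0 hrd 0 0 c 1 hc
    refine ⟨C, fun k n B x hkn hBm hBQ hx hBx hBf => ?_⟩
    have h1 := hC [] 0 k n B x x (Nat.zero_le _) hkn ⟨by simp, by simp, by simp⟩ hBm hBQ hx hBx
      (fun y hy => by
        have := hBx hy
        rw [Metric.mem_closedBall, dist_comm] at this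
        rw [one_mul]
        exact this) (Or.inr hBf) (by intro a ha; simp at ha) (by intro a ha; simp at ha)
    rw [Ph_nil P hCh.prob, mul_one, hCh.zero] at h1
    simp only [W_nil, one_mul, ENNReal.rpow_zero, mul_one] at h1
    refine h1.trans (le_of_eq ?_)
    congr 1
    rw [← hqd]
    ring
  obtain ⟨C1, hC1⟩ := hF1 Ω T i₁ i₂ hsc i₃ hBor P X Q s vol β d hCh hQ hsf hreg hd q hq0 hβd hCl
    c C₀ hc
  obtain ⟨C2, hC2'⟩ := hb (q + h) (by linarith) (by nlinarith)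
  obtain ⟨C3, hC3⟩ := hb (q - h) (by linarith) (by nlinarith)
  obtain ⟨C, hC⟩ : ∃ C : ℝ, C = max C1 (max C2 C3) := ⟨_, rfl⟩
  have hCC1 : C1 ≤ C := by rw [hC]; exact le_max_left _ _
  have hCC2 : C2 ≤ C := by rw [hC]; exact (le_max_left _ _).trans (le_max_right _ _)
  have hCC3 : C3 ≤ C := by rw [hC]; exact (le_max_right _ _).trans (le_max_right _ _)
  obtain ⟨C', σ', hA5'⟩ := hA5 q h v γ (v / 2) C hh0 (by linarith) hγe
  -- the levels
  obtain ⟨k, hk1, hk2, hk3⟩ := exists_levels hCh.top (max σ σ') (2 / v) (by positivity)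
  obtain ⟨N, hN⟩ : ∃ N : ℕ, H ≤ N * Real.exp (-C') := by
    obtain ⟨N, hN⟩ := exists_nat_ge (H / Real.exp (-C'))
    exact ⟨N, (div_le_iff₀ (Real.exp_pos _)).1 hN⟩
  refine ⟨(Finset.range N).sup k, fun n hn x hx hBex => ?_⟩
  rw [← hq]
  have hkn : ∀ i ∈ Finset.range N, k i ≤ n := fun i hi => (Finset.le_sup hi).trans hn
  choose B hBm hBA hBx hBf hBv using fun i => hBex (k i) ((le_max_left _ _).trans (hk1 i))
  obtain ⟨hle, -, hgm, hZm, -⟩ := hC2 Ω T i₁ i₂ hsc i₃ hBor P X hCh.toBase β vol hsf 0 n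
  have hg : Measurable (gh P X β 0 n x) := (hgm x).mono hle le_rfl
  have hZ : ∀ i, Measurable (Z P X β vol 0 n (B i)) := fun i => (hZm (B i) (hBm i)).mono hle le_rfl
  -- the windows
  have hwin : ∀ i ∈ Finset.range N, ex (-C') ≤ ∫⁻ ω, gh P X β 0 n x ω *
      (min (Z P X β vol 0 n (B i) ω) (ex ((v + v / 2) * s (k i))) ^ q -
        ex ((v - v / 2) * s (k i) - 1) ^ q) ∂P := by
    intro i hi
    refine hA5' Ω i₁ P (gh P X β 0 n x) (Z P X β vol 0 n (B i)) hg (hZ i) (s (k i))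
      ((le_max_right _ _).trans (hk1 i)) ?_ ?_ ?_
    · refine le_trans (ex_mono ?_) (hC1 (k i) n (B i) x (hkn i hi) (hBm i) ((hBA i).trans hAQ) hx
        (hBx i) (hBf i) (hBv i))
      have h1 : -C1 + β ^ 2 / 2 * ((1 + q) ^ 2 - (1 + q)) * s (k i) - d * q * s (k i) = -C1 := by
        rw [← hqd]
        ring
      rw [h1]
      linarith
    · refine (hC2' (k i) n (B i) x (hkn i hi) (hBm i) ((hBA i).trans hAQ) hx
        (hBx i) (hBf i)).trans (ex_mono ?_)
      have h1 : β ^ 2 / 2 * (q + h) * (q + h - q) = v * h + γ := by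
        rw [hv, hγ]
        ring
      rw [h1]
      linarith
    · refine (hC3 (k i) n (B i) x (hkn i hi) (hBm i) ((hBA i).trans hAQ) hx
        (hBx i) (hBf i)).trans (ex_mono ?_)
      have h1 : β ^ 2 / 2 * (q - h) * (q - h - q) = γ - v * h := by
        rw [hv, hγ]
        ring
      rw [h1]
      linarith
  -- the sum
  have hpt : ∀ ω, ∑ i ∈ Finset.range N, gh P X β 0 n x ω *
      (min (Z P X β vol 0 n (B i) ω) (ex ((v + v / 2) * s (k i))) ^ q -
        ex ((v - v / 2) * s (k i) - 1) ^ q) ≤ gh P X β 0 n x ω * Z P X β vol 0 n A ω ^ q := by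
    intro ω
    rw [← Finset.mul_sum]
    refine mul_le_mul_right ?_ _
    refine le_trans (Finset.sum_le_sum fun i _ => ?_) (hA4 q (fun i => (v - v / 2) * s (k i) - 1)
      (fun i => (v + v / 2) * s (k i)) (Z P X β vol 0 n A ω) N hq0 ?_ ?_)
    · refine tsub_le_tsub_right (ENNReal.rpow_le_rpow (min_le_min_right _ ?_) hq0.le) _
      exact lintegral_mono_set (hBA i)
    · intro i
      have := hk2 i
      have h1 : 0 ≤ v * s (k i) := mul_nonneg hv0.le this
      show (v - v / 2) * s (k i) - 1 ≤ (v + v / 2) * s (k i)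
      nlinarith
    · intro i
      show (v + v / 2) * s (k i) ≤ (v - v / 2) * s (k (i + 1)) - 1
      have h1 := mul_le_mul_of_nonneg_left (hk3 i) (by linarith : 0 ≤ v / 2)
      have h2 : v / 2 * (3 * s (k i) + 2 / v) = v / 2 * (3 * s (k i)) + 1 := by
        field_simp
      rw [h2] at h1
      linarith
  have hmeas : ∀ i ∈ Finset.range N, Measurable fun ω => gh P X β 0 n x ω *
      (min (Z P X β vol 0 n (B i) ω) (ex ((v + v / 2) * s (k i))) ^ q -
        ex ((v - v / 2) * s (k i) - 1) ^ q) := by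
    intro i _
    exact hg.mul ((((hZ i).min measurable_const).pow_const q).sub measurable_const)
  calc ENNReal.ofReal H ≤ ENNReal.ofReal (N * Real.exp (-C')) := ENNReal.ofReal_le_ofReal hN
    _ = ∑ i ∈ Finset.range N, ex (-C') := by
        rw [Finset.sum_const, Finset.card_range, nsmul_eq_mul, ENNReal.ofReal_mul (Nat.cast_nonneg _),
          ENNReal.ofReal_natCast]
        rfl
    _ ≤ ∑ i ∈ Finset.range N, ∫⁻ ω, gh P X β 0 n x ω *
      (min (Z P X β vol 0 n (B i) ω) (ex ((v + v / 2) * s (k i))) ^ q -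
        ex ((v - v / 2) * s (k i) - 1) ^ q) ∂P := Finset.sum_le_sum hwin
    _ = ∫⁻ ω, ∑ i ∈ Finset.range N, gh P X β 0 n x ω *
      (min (Z P X β vol 0 n (B i) ω) (ex ((v + v / 2) * s (k i))) ^ q -
        ex ((v - v / 2) * s (k i) - 1) ^ q) ∂P := (lintegral_finsetSum _ hmeas).symm
    _ ≤ _ := lintegral_mono hpt

end Pool.Agent.H216.GC.F2
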